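import Pool.Agent.TH621.RQ.RatP

set_option autoImplicit false

/-! # Long prime-free intervals around the values of all polynomials of a finite family at primes

For every finite family `𝓕` of nonconstant polynomials with rational coefficients there are `c > 0` and
`δ > 0` such that for all large `X` there are at least `X ^ δ` primes `p ≤ X` such that, for all
`f ∈ 𝓕` simultaneously, no integer `m ≠ ± p` within `c log X log₂ X log₄ X / (log₃ X)²` of `f(p)` is
a prime or the negative of a prime.

Method: the covering of `Pool.Agent.TH621.RP` (Rankin's construction for all polynomials, with a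
new lemma on prime factors of polynomial values) is run in the variable `y`, `p = 1 + D y`, with residue
classes which never force `p ≡ 0`, and without one prime `p₁`; the primes `p` come from a theorem of
Linnik's type for moduli which avoid one exceptional modulus (`Pool.Agent.TH909`), which is shown
to exceed every power of `log X`, so that it can be avoided by dropping one prime `p₁ > 2 log x`. -/

namespace Pool.Agent.Results.MP_028722_nt.AllPolynomialsAtPrimes

open Polynomial

theorem result (𝓕 : Finset ℚ[X]) (h𝓕 : ∀ f ∈ 𝓕, 1 ≤ f.natDegree) :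
    ∃ c δ : ℝ, 0 < c ∧ 0 < δ ∧ ∃ X₀ : ℝ, ∀ X : ℝ, X₀ ≤ X →
      X ^ δ ≤ ({p : ℕ | p.Prime ∧ (p : ℝ) ≤ X ∧ ∀ f ∈ 𝓕, ∀ m : ℤ,
        |(m : ℝ) - ((f.eval (p : ℚ) : ℚ) : ℝ)| ≤
          c * (Real.log X * Real.log (Real.log X) *
            Real.log (Real.log (Real.log (Real.log X))) /
              (Real.log (Real.log (Real.log X))) ^ 2) →
        m ≠ p → m ≠ -(p : ℤ) → ¬ Prime m}.ncard : ℝ) := by
  obtain ⟨c, δ, hc, hδ, X₀, h⟩ := Pool.Agent.TH621.RQ.mainP_rat 𝓕 h𝓕
  refine ⟨c, δ, hc, hδ, X₀, fun X hX => ?_⟩
  obtain ⟨S, hS1, hS2⟩ := h X hX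
  refine hS1.trans ?_
  rw [← Set.ncard_coe_finset S]
  apply Nat.cast_le.mpr
  apply Set.ncard_le_ncard
  · intro p hp
    exact hS2 p hp
  · apply (Set.finite_Iic ⌊X⌋₊).subset
    intro p hp
    exact Set.mem_Iic.2 (Nat.le_floor hp.2.1)

end Pool.Agent.Results.MP_028722_nt.AllPolynomialsAtPrimes
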