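import Pool.Agent.TH709.RGap.DeuberMain

set_option autoImplicit false

/-!
# Deuber's theorem for consecutive prime gaps of record size

Let `f(x) = log x (log₂ x)² log₄ x / (log₃ x)²`, the size of the largest gaps that are known to
occur among the primes up to `x`.  Let the natural numbers be coloured with finitely many colours.
There are at least `x^(7/8)` blocks of consecutive primes up to `x` with gaps `d_1, …, d_k ≥ c f(x)`
such that ALL the numbers

`c₀ d_i + μ_1 d_1 + … + μ_(i-1) d_(i-1)`, `1 ≤ i ≤ k`, `μ_j` integers, `|μ_j| ≤ q`,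

are positive and have the same colour.  These are the `(m, p, c)`-sets of Deuber, which characterise
partition regularity: every partition regular homogeneous linear system has a solution in each of
them, if `k`, `q` are large and `c₀` is suitable.  So every such system has a monochromatic
solution in which all the unknowns are combinations of this shape of `k` consecutive record gaps.
In particular (`c₀ = q = 1`) the sums of all nonempty subsets of `k` consecutive record gaps can be
monochromatic.

Method.  The sieve of helper101 (`Pool.Agent.TH101.RG.core`) isolates, inside record windows,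
primes of an arbitrary pattern of positions `B l` with `l` in a set of bounded size; the set is
chosen so that all the sets of gaps which can arise by deleting positions are monochromatic Deuber
sets; this uses Deuber's theorem with constant rows (proved from the Hales-Jewett theorem in
`Pool.Agent.TH709.RGap.Deuber`) and the fact that sums of consecutive generators of a Deuber set
generate a Deuber set.
-/

namespace Pool.Agent.Results.MP_028722_nt.DeuberRecordGaps

/-- The record scale `f(x) = log x (log₂ x)² log₄ x / (log₃ x)²` (iterated natural logarithms). -/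
noncomputable def f (x : ℝ) : ℝ :=
  Real.log x * (Real.log (Real.log x)) ^ 2 * Real.log (Real.log (Real.log (Real.log x))) /
    (Real.log (Real.log (Real.log x))) ^ 2

/-- The `i`-th prime, numbered from `p 0 = 2`. -/
noncomputable def p (i : ℕ) : ℕ := Nat.nth Nat.Prime i

/-- The gap after the `i`-th prime. -/
noncomputable def d (i : ℕ) : ℤ := (p (i + 1) : ℤ) - p i

/-- The primes `p_n, …, p_(n+k)` are at most `x` and the `k` gaps between them are at least
`c f(x)`. -/
def RecordBlock (c x : ℝ) (k n : ℕ) : Prop :=
  (p (n + k) : ℝ) ≤ x ∧ ∀ i < k, c * f x ≤ (d (n + i) : ℝ)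

/-- The Deuber set (`(m, p, c)`-set) generated by the `k` gaps after `p_n`: all the integers
`c₀ d_(n+i) + ∑_(j < i) μ_j d_(n+j)` with `i < k` and integers `|μ_j| ≤ q`. -/
def DeuberSet (q c₀ k n : ℕ) : Set ℤ :=
  {v | ∃ i < k, ∃ μ : ℕ → ℤ, (∀ j, |μ j| ≤ q) ∧
    v = c₀ * d (n + i) + ∑ j ∈ Finset.range i, μ j * d (n + j)}

/-- **Deuber's theorem for record gaps.**  For all `k`, `q`, `c₀ ≥ 1` and `ρ` there are `c > 0` and
`x₀` such that for all `x ≥ x₀` and every colouring `χ` of the natural numbers with `ρ` colours
there are at least `x^(7/8)` blocks `p_n, …, p_(n+k)` of consecutive primes up to `x`, with all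
`k` gaps at least `c f(x)`, whose Deuber set consists of positive integers of one colour. -/
theorem result (k q c₀ ρ : ℕ) (hc₀ : 0 < c₀) : ∃ c : ℝ, 0 < c ∧ ∃ x₀ : ℝ, ∀ x : ℝ, x₀ ≤ x →
    ∀ χ : ℕ → Fin ρ, x ^ (7 / 8 : ℝ) ≤ (Set.ncard {n : ℕ | RecordBlock c x k n ∧
      ∃ col : Fin ρ, ∀ v ∈ DeuberSet q c₀ k n, 0 < v ∧ χ v.toNat = col} : ℝ) := by
  obtain ⟨c, hc, h⟩ := Pool.Agent.TH709.RGap.deuber_gaps k q c₀ ρ hc₀
  obtain ⟨x₀, hx₀⟩ := Filter.eventually_atTop.1 h
  refine ⟨c, hc, x₀, fun x hx χ => (hx₀ x hx χ).trans ?_⟩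
  rw [Nat.cast_le]
  refine Set.ncard_le_ncard ?_ ?_
  · rintro n ⟨h1, h2, col, h3⟩
    refine ⟨⟨h1, fun i hi => ?_⟩, col, ?_⟩
    · unfold d p
      push_cast
      exact h2 i hi
    · rintro v ⟨i, hi, μ, hμ, rfl⟩
      obtain ⟨m, hm0, hm, hmc⟩ := h3 i hi μ hμ
      have h4 : (m : ℤ) = c₀ * d (n + i) + ∑ j ∈ Finset.range i, μ j * d (n + j) := hm
      rw [← h4]
      exact ⟨by exact_mod_cast hm0, by rw [Int.toNat_natCast]; exact hmc⟩
  · refine (Set.finite_Iic ⌊x⌋₊).subset ?_
    rintro n ⟨⟨h1, -⟩, -⟩
    refine Nat.le_floor (le_trans ?_ h1)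
    have h2 : n + k ≤ Nat.nth Nat.Prime (n + k) :=
      (Nat.nth_strictMono Nat.infinite_setOfPred_prime).le_apply
    exact_mod_cast (Nat.le_add_right n k).trans h2

end Pool.Agent.Results.MP_028722_nt.DeuberRecordGaps
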