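import Pool.Agent.TH915.PW.GenPoly

set_option autoImplicit false

/-! # Prime gaps of record length around the values of generalised polynomials

Let `f t = ∑ a_x t ^ x` be a generalised polynomial (finitely many real exponents) whose largest
exponent `c` is positive and not an integer, with `a_c > 0`; for instance `f t = α t ^ c`.  Then for
all large `M` some `n` in `(M, M + M ^ (1 - δ)]` has no prime within
`κ log M (log₂ M)² log₄ M / (log₃ M)²` of `f n`.

Proof (`TH915/PW/Smooth.lean` has the general theorem for smooth functions of non-integral order):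
`⌊c⌋` Weyl - van der Corput differencing steps and the inequality of Kusmin and Landau show that the
integer parts of the `f n` are equidistributed in residue classes with a power saving, also in short
intervals; the covering sieve of `MP_3bc45c_nt.RecordGaps` (helper256's team), in a form for
families of integers with a relative error, does the rest. -/

namespace Pool.Agent.Results.MP_028722_nt.NonIntegralOrder

theorem result (F : Finset ℝ) (a : ℝ → ℝ) (c : ℝ) (hcF : c ∈ F) (hmax : ∀ x ∈ F, x ≤ c)
    (hac : 0 < a c) (hc : 0 < c) (hcn : ∀ m : ℕ, c ≠ m) :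
    ∃ κ : ℝ, 0 < κ ∧ ∃ δ : ℝ, 0 < δ ∧ ∃ M₀ : ℝ, ∀ M : ℝ, M₀ ≤ M →
      ∃ n : ℕ, M < n ∧ (n : ℝ) ≤ M + M ^ (1 - δ) ∧ ∀ q : ℕ, q.Prime →
        κ * (Real.log M * (Real.log (Real.log M)) ^ 2 *
          Real.log (Real.log (Real.log (Real.log M))) / (Real.log (Real.log (Real.log M))) ^ 2) <
            |(q : ℝ) - ∑ x ∈ F, a x * (n : ℝ) ^ x| :=
  Pool.Agent.TH915.PW.genpoly_main F a c hcF hmax hac hc hcn

end Pool.Agent.Results.MP_028722_nt.NonIntegralOrder
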