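import Pool.Agent.TH29.GO.Orders
import Pool.Agent.TH29.GO.Record
import Pool.Agent.H362R2.RQ.Fin

set_option autoImplicit false

/-!
# Orderings of consecutive prime gaps of record size

Let `f(X) = log X (log₂ X)² log₄ X / (log₃ X)²`, the size of the largest gaps that are known to occur
among the primes up to `X`.  At every scale `H` between `log X` and `c f(X)` there are at least
`X^(7/8)` blocks of `k + 1` consecutive primes in `(X, 4X]`, all in a given residue class modulo a
squarefree number, whose `k` gaps are all of size `H` up to constants and have a prescribed ordering,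
for six orderings of `k` gaps and their reversals.  In particular the record gaps occur in every
ordering of three consecutive gaps and with every pattern of rises and falls of four consecutive
gaps.

Method.  The coloured Maynard-Tao theorem inside the windows of the record sieve
(`Pool.Agent.H362R2.RQ.stRQ`) produces primes exactly at an unknown set of positions which meets a
positive proportion of the colours.  The positions are arranged in groups with separated scales such
that the order pattern does not depend on the unknown set (`Pool.Agent.TH29.GO.Force`).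
-/

namespace Pool.Agent.Results.MP_028722_nt.RecordOrderPatterns

/-- The record scale `f(X) = log X (log₂ X)² log₄ X / (log₃ X)²` (iterated natural logarithms). -/
noncomputable def f (X : ℝ) : ℝ :=
  Real.log X * (Real.log (Real.log X)) ^ 2 * Real.log (Real.log (Real.log (Real.log X))) /
    (Real.log (Real.log (Real.log X))) ^ 2

/-- The `i`-th prime, numbered from `p 0 = 2`. -/
noncomputable def p (i : ℕ) : ℕ := Nat.nth Nat.Prime i

/-- The gap after the prime `p i`. -/
noncomputable def d (i : ℕ) : ℝ := (p (i + 1) : ℝ) - p i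

/-- The `k` gaps after the prime `p n` are compatible with the relation `lt` with the factor `A`, they
are at least `c H` and sum up to at most `H`, and the `k + 1` primes lie in `(X, 4X]` and in the class
of `a` modulo `q`. -/
def Block {k : ℕ} (lt : Fin k → Fin k → Prop) (A c H X : ℝ) (q a n : ℕ) : Prop :=
  X < (p n : ℝ) ∧ (p (n + k) : ℝ) ≤ 4 * X ∧ (p (n + k) : ℝ) ≤ (p n : ℝ) + H ∧
  (∀ i : Fin (k + 1), p (n + i) ≡ a [MOD q]) ∧ (∀ i : Fin k, c * H ≤ d (n + i)) ∧
  ∀ i j : Fin k, lt i j → A * d (n + i) ≤ d (n + j)

/-- For every `A` there is `c > 0` such that for all squarefree `q`, all `a` prime to `q` and all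
large `X`: for every `H` with `log X ≤ H ≤ c f(X)` there are at least `X^(7/8)` such blocks. -/
def Occurs {k : ℕ} (lt : Fin k → Fin k → Prop) : Prop :=
  ∀ A : ℝ, ∃ c : ℝ, 0 < c ∧ ∀ q a : ℕ, Squarefree q → a.Coprime q → ∃ X₀ : ℝ, ∀ X : ℝ, X₀ ≤ X →
    ∀ H : ℝ, Real.log X ≤ H → H ≤ c * f X →
      X ^ (7 / 8 : ℝ) ≤ ({n : ℕ | Block lt A c H X q a n}.ncard : ℝ)

/-- Six orderings of `k` gaps: the gap number `i < k` has the rank `o i` among the `k` gaps.
In words, with ranks counted from `1`: `1, …, k`; `1, …, k-2, k, k-1`; `k-2, …, 1, k, k-1`;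
`2, …, k, 1`; `k-1, …, 1, k`; `1, k, 2, …, k-1`. -/
def orders (k : ℕ) : List (ℕ → ℕ) :=
  [fun i => i,
   fun i => if i + 2 < k then i else 2 * k - 3 - i,
   fun i => if i + 2 < k then k - 3 - i else 2 * k - 3 - i,
   fun i => if i + 1 < k then i + 1 else 0,
   fun i => if i + 1 < k then k - 2 - i else k - 1,
   fun i => if i = 0 then 0 else if i = 1 then k - 1 else i - 1]

open Pool.Agent.TH29.GO

theorem occ (k : ℕ) (σ : ℕ → ℕ) (lt : Fin k → Fin k → Prop) (h : ∀ c₀, 1 ≤ c₀ → Forces c₀ k σ)
    (hlt : ∀ i j, lt i j → σ i < σ j) : Occurs lt := by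
  intro A
  obtain ⟨c, hc, hmain⟩ := record_of Pool.Agent.H362R2.RQ.stRQ h A
  refine ⟨c, hc, fun q a hq ha => ?_⟩
  obtain ⟨X₀, hX₀⟩ := Filter.eventually_atTop.1 (hmain q a hq ha)
  refine ⟨X₀, fun X hX H hH1 hH2 => (hX₀ X hX H hH1 hH2).trans ?_⟩
  rw [Nat.cast_le]
  refine Set.ncard_le_ncard ?_ ?_
  · rintro n ⟨h1, h2, h3, h4, h5, h6⟩
    exact ⟨h1, h2, h3, fun i => h4 i (by omega), fun i => h5 i i.2,
      fun i j hij => h6 i j i.2 j.2 (hlt i j hij)⟩
  · refine (Set.finite_Iic ⌊4 * X⌋₊).subset ?_
    intro n hn
    rw [Set.mem_Iic]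
    refine Nat.le_floor (le_trans ?_ hn.2.1)
    have h2 : n + k ≤ p (n + k) := (Nat.nth_strictMono Nat.infinite_setOfPred_prime).le_apply
    exact_mod_cast (Nat.le_add_right n k).trans h2

/-- Orderings of consecutive prime gaps of record size, see `Occurs`.  For every `k ≥ 3` the six
orderings `orders k` of `k` consecutive gaps, and their reversals, occur (twelve orderings if
`k ≥ 4`).  In particular every ordering of three consecutive gaps occurs, and every pattern of rises
(`ε l = true`) and falls (`ε l = false`) of four consecutive gaps occurs. -/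
theorem result :
    (∀ k : ℕ, 3 ≤ k → ∀ o ∈ orders k, Occurs (fun i j : Fin k => o i < o j) ∧
      Occurs (fun i j : Fin k => o (k - 1 - i) < o (k - 1 - j))) ∧
    (∀ σ : Equiv.Perm (Fin 3), Occurs (fun i j : Fin 3 => σ i < σ j)) ∧
    (∀ ε : Fin 3 → Bool, Occurs (fun i j : Fin 4 => ∃ l : Fin 3,
      (ε l = true ∧ i = l.castSucc ∧ j = l.succ) ∨
        (ε l = false ∧ i = l.succ ∧ j = l.castSucc))) :=
  orders_all (fun _ lt => Occurs lt) occ

end Pool.Agent.Results.MP_028722_nt.RecordOrderPatterns
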